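import Mathlib
import Pool.Agent.W261.QJ.Stm
import Pool.Agent.Helper114.RMT
import Pool.Agent.Helper240.ZFM.ConvA

/-!
Project QJ (helper261): S_rinf, the Riemann map of the exterior of a full continuum.
-/

set_option autoImplicit false
open Filter Topology Set Metric

namespace Pool.Agent.W790.QJ

open Pool.Agent.W261.QJ

/-- the inverted complement -/
def Om (K : Set ℂ) (z0 : ℂ) : Set ℂ := {w : ℂ | w = 0 ∨ z0 + w⁻¹ ∉ K}

theorem om_open {K : Set ℂ} (hK : IsCompact K) (z0 : ℂ) : IsOpen (Om K z0) := by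
  rw [isOpen_iff_mem_nhds]
  intro w hw
  by_cases h0 : w = 0
  · subst h0
    obtain ⟨R, hR⟩ := hK.isBounded.subset_ball z0
    have hR' : K ⊆ ball z0 (max R 1) := hR.trans (ball_subset_ball (le_max_left _ _))
    set r : ℝ := max R 1
    have hr : 0 < r := lt_of_lt_of_le one_pos (le_max_right _ _)
    filter_upwards [ball_mem_nhds (0 : ℂ) (inv_pos.2 hr)] with w hw
    by_cases h1 : w = 0
    · exact Or.inl h1
    · refine Or.inr fun h2 => ?_
      have h3 := hR' h2
      rw [mem_ball, dist_eq_norm, add_sub_cancel_left, norm_inv] at h3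
      rw [mem_ball_zero_iff] at hw
      have h4 : 0 < ‖w‖ := norm_pos_iff.2 h1
      have h5 : r < ‖w‖⁻¹ := (lt_inv_comm₀ hr h4).2 hw
      linarith
  · have h1 : z0 + w⁻¹ ∉ K := by
      rcases hw with hw | hw
      · exact absurd hw h0
      · exact hw
    have h2 : ContinuousAt (fun w : ℂ => z0 + w⁻¹) w :=
      continuousAt_const.add (continuousAt_inv₀ h0)
    have h3 := h2.preimage_mem_nhds (hK.isClosed.isOpen_compl.mem_nhds h1)
    filter_upwards [h3] with x hx
    exact Or.inr hx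

theorem om_conn {K : Set ℂ} (hK : IsCompact K) {z0 : ℂ} (h0 : z0 ∈ K)
    (hc : IsConnected Kᶜ) : IsConnected (Om K z0) := by
  have hcont : ContinuousOn (fun z : ℂ => (z - z0)⁻¹) Kᶜ := by
    intro z hz
    have : z - z0 ≠ 0 := by
      intro h
      apply hz
      rw [sub_eq_zero] at h
      rw [h]
      exact h0
    exact ((continuousAt_id.sub continuousAt_const).inv₀ this).continuousWithinAt
  have h1 := hc.isPreconnected.image _ hcont
  refine ⟨⟨0, Or.inl rfl⟩, h1.subset_closure ?_ ?_⟩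
  · rintro _ ⟨z, hz, rfl⟩
    refine Or.inr ?_
    simpa using hz
  · intro w hw
    rcases hw with hw | hw
    · subst hw
      -- zero in closure
      rw [Metric.mem_closure_iff]
      intro e he
      obtain ⟨R, hR⟩ := hK.isBounded.subset_ball z0
      set r : ℝ := max R (e⁻¹ + 1) with hrr
      have hr : 0 < r := lt_of_lt_of_le (by positivity) (le_max_right _ _)
      refine ⟨((r : ℝ) : ℂ)⁻¹, ⟨z0 + r, ?_, by simp⟩, ?_⟩
      · intro h2
        have h3 := hR h2
        rw [mem_ball, dist_eq_norm, add_sub_cancel_left, Complex.norm_real,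
          Real.norm_of_nonneg hr.le] at h3
        exact absurd (le_max_left R (e⁻¹ + 1)) (not_le.2 h3)
      · rw [dist_eq_norm, zero_sub, norm_neg, norm_inv, Complex.norm_real,
          Real.norm_of_nonneg hr.le]
        rw [inv_lt_comm₀ hr he]
        have := le_max_right R (e⁻¹ + 1)
        rw [← hrr] at this
        linarith
    · apply subset_closure
      exact ⟨z0 + w⁻¹, hw, by simp⟩

theorem om_fc {K : Set ℂ} (hfill : S_fill) (hKc : IsConnected K) {z0 : ℂ}
    (h0 : z0 ∈ K) : FC (Om K z0) := by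
  intro L hL hLc
  obtain ⟨L', hLL', hL'c, hconn, hL'⟩ := hfill L hLc
  refine ⟨L', ?_, hLL', hL'c, hconn⟩
  intro z hz
  by_contra hzO
  have hzL : z ∉ L := fun h => hzO (hL h)
  obtain ⟨V, hVo, hVc, hVb, hzV, hdis, hfr⟩ := hL' z hz hzL
  have hz0 : z ≠ 0 := fun h => hzO (Or.inl h)
  have hzK : z0 + z⁻¹ ∈ K := by
    by_contra h
    exact hzO (Or.inr h)
  -- open sets
  have hU1 : IsOpen {x : ℂ | x ≠ z0 ∧ (x - z0)⁻¹ ∈ V} := by
    rw [isOpen_iff_mem_nhds]
    rintro x ⟨hx, hxV⟩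
    have h2 : ContinuousAt (fun x : ℂ => (x - z0)⁻¹) x :=
      (continuousAt_id.sub continuousAt_const).inv₀ (sub_ne_zero.2 hx)
    filter_upwards [h2.preimage_mem_nhds (hVo.mem_nhds hxV), isOpen_ne.mem_nhds hx] with y hy hy'
    exact ⟨hy', hy⟩
  have hU2 : IsOpen {x : ℂ | x = z0 ∨ (x - z0)⁻¹ ∉ closure V} := by
    rw [isOpen_iff_mem_nhds]
    intro x hx
    by_cases hxz : x = z0
    · subst hxz
      obtain ⟨R, hR⟩ := hVb.closure.subset_ball 0
      have hR' : closure V ⊆ ball 0 (max R 1) := hR.trans (ball_subset_ball (le_max_left _ _))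
      set r : ℝ := max R 1
      have hr : 0 < r := lt_of_lt_of_le one_pos (le_max_right _ _)
      filter_upwards [ball_mem_nhds x (inv_pos.2 hr)] with w hw
      by_cases h1 : w = x
      · exact Or.inl h1
      · refine Or.inr fun h2 => ?_
        have h3 := hR' h2
        rw [mem_ball_zero_iff, norm_inv] at h3
        rw [mem_ball, dist_eq_norm] at hw
        have h4 : 0 < ‖w - x‖ := norm_pos_iff.2 (sub_ne_zero.2 h1)
        have h5 : r < ‖w - x‖⁻¹ := (lt_inv_comm₀ hr h4).2 hw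
        linarith
    · have h1 : (x - z0)⁻¹ ∉ closure V := by
        rcases hx with hx | hx
        · exact absurd hx hxz
        · exact hx
      have h2 : ContinuousAt (fun x : ℂ => (x - z0)⁻¹) x :=
        (continuousAt_id.sub continuousAt_const).inv₀ (sub_ne_zero.2 hxz)
      filter_upwards [h2.preimage_mem_nhds (isClosed_closure.isOpen_compl.mem_nhds h1)] with y hy
      exact Or.inr hy
  obtain ⟨x, hxK, hx1, hx2⟩ := hKc.isPreconnected _ _ hU1 hU2 (by
    intro x hx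
    by_cases hxz : x = z0
    · exact Or.inr (Or.inl hxz)
    · have h1 : x - z0 ≠ 0 := sub_ne_zero.2 hxz
      have h2 : (x - z0)⁻¹ ∉ Om K z0 := by
        intro h
        rcases h with h | h
        · exact inv_ne_zero h1 h
        · apply h
          rw [inv_inv, add_sub_cancel]
          exact hx
      by_cases h3 : (x - z0)⁻¹ ∈ V
      · exact Or.inl ⟨hxz, h3⟩
      · refine Or.inr (Or.inr fun h4 => h2 (hL (hfr ?_)))
        rw [hVo.frontier_eq]
        exact ⟨h4, h3⟩)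
    ⟨z0 + z⁻¹, hzK, by
      refine ⟨?_, ?_⟩
      · intro h
        apply inv_ne_zero hz0
        linear_combination h
      · rw [add_sub_cancel_left, inv_inv]
        exact hzV⟩
    ⟨z0, h0, Or.inl rfl⟩
  rcases hx2 with h | h
  · exact hx1.1 h
  · exact h (subset_closure hx1.2)

/-- Riemann mapping theorem for a domain which omits a point. -/
theorem rmt {U : Set ℂ} (hU : IsOpen U) (hUc : IsConnected U) (hsq : SQ U) {p w1 : ℂ}
    (hp : p ∈ U) (hw1 : w1 ∉ U) :
    ∃ H : ℂ → ℂ, DifferentiableOn ℂ H (ball 0 1) ∧ InjOn H (ball 0 1) ∧ H '' ball 0 1 = U ∧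
      H 0 = p := by
  obtain ⟨s, hsd, hs2⟩ := hsq (fun w => w - w1) (by fun_prop)
    (fun z hz h => hw1 (by rw [sub_eq_zero] at h; rwa [← h]))
  have hsi : InjOn s U := by
    intro x hx y hy hxy
    have h1 := hs2 x hx
    have h2 := hs2 y hy
    rw [hxy, h2] at h1
    linear_combination -h1
  have hs0 : ∀ z ∈ U, s z ≠ 0 := by
    intro z hz h
    have := hs2 z hz
    rw [h] at this
    apply hw1
    have h3 : z = w1 := by linear_combination -this
    rwa [← h3]
  obtain ⟨hso, -⟩ := Pool.Agent.Helper405.Conv.inv_facts hU hsd hsi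
  obtain ⟨r, hr, hball⟩ := Metric.isOpen_iff.1 hso (s p) ⟨p, hp, rfl⟩
  have hlow : ∀ w ∈ U, r ≤ ‖s w + s p‖ := by
    intro w hw
    by_contra hcon
    push Not at hcon
    have h1 : -s w ∈ ball (s p) r := by
      rw [mem_ball, dist_eq_norm]
      have : -s w - s p = -(s w + s p) := by ring
      rw [this, norm_neg]
      exact hcon
    obtain ⟨w', hw', h2⟩ := hball h1
    have h3 := hs2 w' hw'
    rw [h2, neg_sq, hs2 w hw] at h3
    have h4 : w = w' := by linear_combination h3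
    subst h4
    apply hs0 w hw
    linear_combination (1/2 : ℂ) * h2
  have hne : ∀ w ∈ U, s w + s p ≠ 0 := by
    intro w hw h
    have := hlow w hw
    rw [h, norm_zero] at this
    linarith
  set G : ℂ → ℂ := fun w => (s w + s p)⁻¹ with hG
  have hGd : DifferentiableOn ℂ G U := (hsd.add_const _).inv hne
  have hGi : InjOn G U := by
    intro x hx y hy hxy
    simp only [hG, inv_inj] at hxy
    exact hsi hx hy (by linear_combination hxy)
  obtain ⟨hWo, g, hgd, hgl, -⟩ := Pool.Agent.Helper405.Conv.inv_facts hU hGd hGi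
  have hWc : IsConnected (G '' U) := hUc.image _ hGd.continuousOn
  have hWb : Bornology.IsBounded (G '' U) := by
    rw [isBounded_iff_forall_norm_le]
    refine ⟨r⁻¹, ?_⟩
    rintro _ ⟨z, hz, rfl⟩
    simp only [hG, norm_inv]
    exact inv_anti₀ hr (hlow z hz)
  have hgm : MapsTo g (G '' U) U := by
    rintro _ ⟨z, hz, rfl⟩
    rw [hgl z hz]
    exact hz
  have hsqW : ∀ u : ℂ → ℂ, DifferentiableOn ℂ u (G '' U) → (∀ z ∈ G '' U, u z ≠ 0) →
      ∃ s : ℂ → ℂ, DifferentiableOn ℂ s (G '' U) ∧ ∀ z ∈ G '' U, s z ^ 2 = u z := by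
    intro u hu hu0
    obtain ⟨t, htd, ht2⟩ := hsq (fun w => u (G w)) (hu.comp hGd (mapsTo_image _ _))
      (fun z hz => hu0 _ ⟨z, hz, rfl⟩)
    refine ⟨fun w => t (g w), htd.comp hgd hgm, ?_⟩
    rintro _ ⟨z, hz, rfl⟩
    simp only
    rw [hgl z hz, ht2 z hz]
  obtain ⟨ψ, hψd, hψi, hψm, hψ0⟩ := Pool.Agent.Helper114.RMT.riemann_mapping hWo hWc hWb hsqW
    (z₀ := G p) ⟨p, hp, rfl⟩
  have hFd : DifferentiableOn ℂ (fun w => ψ (G w)) U := hψd.comp hGd (mapsTo_image _ _)
  have hFi : InjOn (fun w => ψ (G w)) U := by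
    intro x hx y hy hxy
    exact hGi hx hy (hψi ⟨x, hx, rfl⟩ ⟨y, hy, rfl⟩ hxy)
  obtain ⟨-, H, hHd, hHl, -⟩ := Pool.Agent.Helper405.Conv.inv_facts hU hFd hFi
  have him : (fun w => ψ (G w)) '' U = ball 0 1 := by
    rw [← hψm, image_image]
  rw [him] at hHd
  refine ⟨H, hHd, ?_, ?_, ?_⟩
  · rw [← him]
    rintro _ ⟨x, hx, rfl⟩ _ ⟨y, hy, rfl⟩ hxy
    rw [hHl x hx, hHl y hy] at hxy
    rw [hxy]
  · rw [← him]
    ext z
    constructor
    · rintro ⟨_, ⟨x, hx, rfl⟩, rfl⟩
      rw [hHl x hx]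
      exact hx
    · intro hz
      exact ⟨_, ⟨z, hz, rfl⟩, hHl z hz⟩
  · have := hHl p hp
    simp only [hψ0] at this
    exact this

/-- RINF -/
theorem rinf : S_rinf := by
  intro hsqrt hfill K hK hKc hKn hKcc
  obtain ⟨z0, hz0, z1, hz1, h01⟩ := hKn
  have hOo := om_open hK z0
  have hOc := om_conn hK hz0 hKcc
  have hsq : SQ (Om K z0) := hsqrt _ hOo hOc (om_fc hfill hKc hz0)
  have hw1 : (z1 - z0)⁻¹ ∉ Om K z0 := by
    intro h
    rcases h with h | h
    · exact inv_ne_zero (sub_ne_zero.2 (Ne.symm h01)) h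
    · apply h
      rw [inv_inv, add_sub_cancel]
      exact hz1
  have h0O : (0 : ℂ) ∈ Om K z0 := Or.inl rfl
  obtain ⟨H, hHd, hHi, hHm, hH0⟩ := rmt hOo hOc hsq h0O hw1
  have hb0 : (0 : ℂ) ∈ ball (0 : ℂ) 1 := by simp
  have hder : deriv H 0 ≠ 0 := Pool.Agent.Helper405.Conv.deriv_ne_zero_of_injOn isOpen_ball hHd hHi hb0
  have hHd0 : HasDerivAt H (deriv H 0) 0 :=
    (hHd.differentiableAt (isOpen_ball.mem_nhds hb0)).hasDerivAt
  have hHne : ∀ ζ ∈ ball (0 : ℂ) 1, ζ ≠ 0 → H ζ ≠ 0 := by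
    intro ζ hζ h1 h2
    exact h1 (hHi hζ hb0 (by rw [h2, hH0]))
  have hinv : ∀ w : ℂ, 1 < ‖w‖ → w⁻¹ ∈ ball (0 : ℂ) 1 ∧ w⁻¹ ≠ 0 := by
    intro w hw
    have hw0 : w ≠ 0 := by
      rintro rfl
      rw [norm_zero] at hw
      linarith
    refine ⟨?_, inv_ne_zero hw0⟩
    rw [mem_ball_zero_iff, norm_inv]
    exact inv_lt_one_of_one_lt₀ hw
  refine ⟨fun w => z0 + (H w⁻¹)⁻¹, (deriv H 0)⁻¹, ?_⟩
  refine ⟨?_, ?_, ?_, inv_ne_zero hder, ?_, ?_⟩
  · -- differentiable
    have h1 : DifferentiableOn ℂ (fun w : ℂ => w⁻¹) {w | 1 < ‖w‖} := by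
      intro w hw
      exact (differentiableAt_inv (fun h => (hinv w hw).2 (by rw [h, inv_zero]))).differentiableWithinAt
    have h2 : DifferentiableOn ℂ (fun w : ℂ => H w⁻¹) {w | 1 < ‖w‖} :=
      hHd.comp h1 (fun w hw => (hinv w hw).1)
    exact (h2.inv (fun w hw => hHne _ (hinv w hw).1 (hinv w hw).2)).const_add z0
  · intro x hx y hy hxy
    simp only [add_right_inj, inv_inj] at hxy
    have := hHi (hinv x hx).1 (hinv y hy).1 hxy
    exact inv_inj.1 this
  · ext z
    constructor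
    · rintro ⟨w, hw, rfl⟩
      have h1 : H w⁻¹ ∈ Om K z0 := by
        rw [← hHm]
        exact ⟨_, (hinv w hw).1, rfl⟩
      rcases h1 with h1 | h1
      · exact absurd h1 (hHne _ (hinv w hw).1 (hinv w hw).2)
      · exact h1
    · intro hz
      have hzz : z - z0 ≠ 0 := by
        intro h
        apply hz
        rw [sub_eq_zero] at h
        rw [h]
        exact hz0
      have h1 : (z - z0)⁻¹ ∈ Om K z0 := by
        refine Or.inr ?_
        rw [inv_inv, add_sub_cancel]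
        exact hz
      rw [← hHm] at h1
      obtain ⟨ζ, hζ, h2⟩ := h1
      have hζ0 : ζ ≠ 0 := by
        rintro rfl
        rw [hH0] at h2
        exact inv_ne_zero hzz h2.symm
      refine ⟨ζ⁻¹, ?_, ?_⟩
      · show 1 < ‖ζ⁻¹‖
        rw [norm_inv]
        rw [mem_ball_zero_iff] at hζ
        exact (one_lt_inv₀ (norm_pos_iff.2 hζ0)).2 hζ
      · simp only [inv_inv]
        rw [h2, inv_inv]
        ring
  · -- the limit
    have h1 : Tendsto (fun ζ : ℂ => H ζ / ζ) (𝓝[≠] 0) (𝓝 (deriv H 0)) := by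
      have := hHd0.tendsto_slope
      refine this.congr ?_
      intro ζ
      rw [slope_def_field, hH0, sub_zero, sub_zero]
    have h2 : Tendsto (fun w : ℂ => (H w⁻¹ / w⁻¹)⁻¹) (Bornology.cobounded ℂ)
        (𝓝 (deriv H 0)⁻¹) :=
      (h1.comp tendsto_inv₀_cobounded').inv₀ hder
    have h3 : Tendsto (fun w : ℂ => z0 * w⁻¹) (Bornology.cobounded ℂ) (𝓝 (z0 * 0)) :=
      tendsto_inv₀_cobounded.const_mul z0
    have h4 := h3.add h2
    rw [mul_zero, zero_add] at h4
    refine h4.congr ?_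
    intro w
    rw [inv_div, div_eq_mul_inv, div_eq_mul_inv]
    ring
  · -- bounded
    have hb : ball (0 : ℂ) (1 / 2) ⊆ ball 0 1 := ball_subset_ball (by norm_num)
    obtain ⟨ho, -⟩ := Pool.Agent.Helper405.Conv.inv_facts isOpen_ball (hHd.mono hb) (hHi.mono hb)
    obtain ⟨c, hc, hcb⟩ := Metric.isOpen_iff.1 ho 0 ⟨0, by simp, hH0⟩
    refine ⟨‖z0‖ + c⁻¹, ?_⟩
    intro w hw hw2
    have h1 : c ≤ ‖H w⁻¹‖ := by
      by_contra hcon
      push Not at hcon
      obtain ⟨ζ, hζ, h2⟩ := hcb (mem_ball_zero_iff.2 hcon)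
      have h3 := hHi (hb hζ) (hinv w hw).1 h2
      rw [h3, mem_ball_zero_iff, norm_inv] at hζ
      have h4 : (2 : ℝ)⁻¹ ≤ ‖w‖⁻¹ := inv_anti₀ (by linarith) hw2
      linarith
    calc ‖z0 + (H w⁻¹)⁻¹‖ ≤ ‖z0‖ + ‖(H w⁻¹)⁻¹‖ := norm_add_le _ _
      _ ≤ ‖z0‖ + c⁻¹ := by
        rw [norm_inv]
        have := inv_anti₀ hc h1
        linarith

end Pool.Agent.W790.QJ
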